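import Pool.Agent.Lib.MP_0c6837_al.Faithful

/-!
# The concrete data: a product of two Cantor sets
-/

open Set Filter Topology
open scoped Classical

set_option autoImplicit false

namespace Pool.Agent.Lib.MP_0c6837_al

/-- The Cantor set. -/
abbrev CS := ℕ → Bool

/-- prepend a bit -/
def consB (b : Bool) (x : CS) : CS := fun n => Nat.casesOn n b x

/-- tail -/
def tl (x : CS) : CS := fun n => x (n + 1)

@[simp] theorem consB_zero (b : Bool) (x : CS) : consB b x 0 = b := rfl
@[simp] theorem consB_succ (b : Bool) (x : CS) (n : ℕ) : consB b x (n + 1) = x n := rfl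
@[simp] theorem tl_apply (x : CS) (n : ℕ) : tl x n = x (n + 1) := rfl
@[simp] theorem tl_consB (b : Bool) (x : CS) : tl (consB b x) = x := rfl

theorem consB_tl {b : Bool} {x : CS} (h : x 0 = b) : consB b (tl x) = x := by
  funext n; cases n with
  | zero => exact h.symm
  | succ n => rfl

theorem continuous_consB (b : Bool) : Continuous (consB b) := by
  refine continuous_pi fun n => ?_
  cases n with
  | zero => exact continuous_const
  | succ n => exact continuous_apply n

theorem continuous_tl : Continuous tl := continuous_pi fun n => continuous_apply (n + 1)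

/-- the contraction -/
def sF (x : CS) : CS :=
  if x 0 = false then consB false x
  else if x 1 = false then consB false (consB true (tl (tl x))) else tl x

/-- its inverse -/
def sG (x : CS) : CS :=
  if x 0 = true then consB true x
  else if x 1 = true then consB true (consB false (tl (tl x))) else tl x

theorem isClopen_coord (i : ℕ) (b : Bool) : IsClopen {x : CS | x i = b} :=
  (isClopen_discrete ({b} : Set Bool)).preimage (continuous_apply i)

theorem continuous_sF : Continuous sF := by
  unfold sF
  refine Continuous.if ?_ (continuous_consB _) (Continuous.if ?_ ?_ continuous_tl)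
  · intro a ha; rw [(isClopen_coord 0 false).frontier_eq] at ha; exact absurd ha (notMem_empty a)
  · intro a ha; rw [(isClopen_coord 1 false).frontier_eq] at ha; exact absurd ha (notMem_empty a)
  · exact (continuous_consB _).comp ((continuous_consB _).comp (continuous_tl.comp continuous_tl))

theorem continuous_sG : Continuous sG := by
  unfold sG
  refine Continuous.if ?_ (continuous_consB _) (Continuous.if ?_ ?_ continuous_tl)
  · intro a ha; rw [(isClopen_coord 0 true).frontier_eq] at ha; exact absurd ha (notMem_empty a)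
  · intro a ha; rw [(isClopen_coord 1 true).frontier_eq] at ha; exact absurd ha (notMem_empty a)
  · exact (continuous_consB _).comp ((continuous_consB _).comp (continuous_tl.comp continuous_tl))

theorem sF_sG (x : CS) : sF (sG x) = x := by
  unfold sG
  by_cases h0 : x 0 = true
  · simp [h0, sF]
  · have h0' : x 0 = false := by simpa using h0
    by_cases h1 : x 1 = true
    · rw [if_neg h0, if_pos h1]
      simp only [sF, consB_zero, consB_succ, tl_consB]
      simp only [Bool.true_eq_false, if_false, if_true]
      rw [consB_tl (by simpa using h1), consB_tl h0']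
    · have h1' : x 1 = false := by simpa using h1
      rw [if_neg h0, if_neg h1]
      simp only [sF, tl_apply, zero_add, h1', if_true]
      exact consB_tl h0'

theorem sG_sF (x : CS) : sG (sF x) = x := by
  unfold sF
  by_cases h0 : x 0 = false
  · simp [h0, sG]
  · have h0' : x 0 = true := by simpa using h0
    by_cases h1 : x 1 = false
    · rw [if_neg h0, if_pos h1]
      simp only [sG, consB_zero, consB_succ, tl_consB]
      simp only [Bool.false_eq_true, if_false, if_true]
      rw [consB_tl (by simpa using h1), consB_tl h0']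
    · have h1' : x 1 = true := by simpa using h1
      rw [if_neg h0, if_neg h1]
      simp only [sG, tl_apply, zero_add, h1', if_true]
      exact consB_tl h0'

/-- flip of the first bit -/
def tF (x : CS) : CS := consB (!(x 0)) (tl x)

theorem tF_tF (x : CS) : tF (tF x) = x := by
  unfold tF
  simp only [consB_zero, tl_consB, Bool.not_not]
  exact consB_tl rfl

theorem continuous_tF : Continuous tF := by
  refine continuous_pi fun n => ?_
  cases n with
  | zero => exact (continuous_of_discreteTopology (f := fun b : Bool => !b)).comp (continuous_apply 0)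
  | succ n => exact continuous_apply (n + 1)

/-- the contraction as a homeomorphism -/
def sH : CS ≃ₜ CS where
  toFun := sF
  invFun := sG
  left_inv := sG_sF
  right_inv := sF_sG
  continuous_toFun := continuous_sF
  continuous_invFun := continuous_sG

/-- the flip as a homeomorphism -/
def tH : CS ≃ₜ CS where
  toFun := tF
  invFun := tF
  left_inv := tF_tF
  right_inv := tF_tF
  continuous_toFun := continuous_tF
  continuous_invFun := continuous_tF

/-- the action of the free group of rank two on the Cantor set -/
def rho : FreeGroup (Fin 2) →* (CS ≃ₜ CS) := FreeGroup.lift ![sH, tH]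

/-- the generators -/
def gs : FreeGroup (Fin 2) := FreeGroup.of 0
/-- the generators -/
def gt : FreeGroup (Fin 2) := FreeGroup.of 1

theorem rho_gs (x : CS) : rho gs x = sF x := by
  simp only [rho, gs, FreeGroup.lift_apply_of]; rfl

theorem rho_gt (x : CS) : rho gt x = tF x := by
  simp only [rho, gt, FreeGroup.lift_apply_of]; rfl

theorem rho_gs_inv (x : CS) : rho gs⁻¹ x = sG x := by
  simp only [rho, gs, map_inv, FreeGroup.lift_apply_of]; rfl

theorem rho_mul (a b : FreeGroup (Fin 2)) (x : CS) : rho (a * b) x = rho a (rho b x) := by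
  rw [map_mul]; rfl

/-- every bit can be prepended -/
theorem exists_prepend (b : Bool) (x : CS) : ∃ g, rho g x = consB b x := by
  cases h0 : x 0
  · cases b
    · exact ⟨gs, by rw [rho_gs]; simp [sF, h0]⟩
    · refine ⟨gt * gs, ?_⟩
      rw [rho_mul, rho_gs, rho_gt]
      simp [sF, h0, tF]
  · cases b
    · refine ⟨gt * gs⁻¹, ?_⟩
      rw [rho_mul, rho_gs_inv, rho_gt]
      simp [sG, h0, tF]
    · exact ⟨gs⁻¹, by rw [rho_gs_inv]; simp [sG, h0]⟩

theorem exists_approx (x : CS) : ∀ (n : ℕ) (y : CS), ∃ g, ∀ i < n, rho g x i = y i := by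
  intro n
  induction n with
  | zero => intro y; exact ⟨1, by simp⟩
  | succ n ih =>
    intro y
    obtain ⟨g, hg⟩ := ih (tl y)
    obtain ⟨g', hg'⟩ := exists_prepend (y 0) (rho g x)
    refine ⟨g' * g, fun i hi => ?_⟩
    rw [rho_mul, hg']
    cases i with
    | zero => rfl
    | succ i => exact hg i (by omega)

/-- the constant sequences -/
def zeroS : CS := fun _ => false
/-- the constant sequences -/
def oneS : CS := fun _ => true

theorem pow_gs_apply_of_zero {x : CS} (h : x 0 = false) (n : ℕ) :
    ∀ j ≤ n, rho (gs ^ n) x j = false := by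
  induction n with
  | zero =>
    intro j hj
    obtain rfl : j = 0 := by omega
    simpa using h
  | succ n ih =>
    intro j hj
    rw [pow_succ', rho_mul, rho_gs]
    have h0 := ih 0 (Nat.zero_le _)
    unfold sF
    rw [if_pos h0]
    cases j with
    | zero => rfl
    | succ j => exact ih j (by omega)

theorem exists_pow_gs_zero : ∀ (k : ℕ) (x : CS), x k = false → ∃ n, rho (gs ^ n) x 0 = false := by
  intro k
  induction k with
  | zero => intro x hx; exact ⟨0, by simpa using hx⟩
  | succ k ih =>
    intro x hx
    cases h0 : x 0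
    · exact ⟨0, by simpa using h0⟩
    · cases h1 : x 1
      · refine ⟨1, ?_⟩
        rw [pow_one, rho_gs]
        simp [sF, h0, h1]
      · have h2 : sF x = tl x := by simp [sF, h0, h1]
        obtain ⟨n, hn⟩ := ih (tl x) hx
        refine ⟨n + 1, ?_⟩
        rw [pow_succ, rho_mul, rho_gs, h2]
        exact hn

theorem tendsto_pow_gs {x : CS} (hx : x ≠ oneS) :
    Tendsto (fun n : ℕ => rho (gs ^ n) x) atTop (𝓝 zeroS) := by
  have hk : ∃ k, x k = false := by
    by_contra hcon
    push Not at hcon
    apply hx
    funext k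
    simpa [oneS] using hcon k
  obtain ⟨k, hk⟩ := hk
  obtain ⟨n0, hn0⟩ := exists_pow_gs_zero k x hk
  rw [tendsto_pi_nhds]
  intro j
  refine tendsto_const_nhds.congr' ?_
  filter_upwards [eventually_ge_atTop (n0 + j)] with n hn
  obtain ⟨r, rfl⟩ := Nat.exists_eq_add_of_le hn
  have : gs ^ (n0 + j + r) = gs ^ (j + r) * gs ^ n0 := by
    rw [← pow_add]; congr 1; omega
  rw [this, rho_mul]
  exact (pow_gs_apply_of_zero hn0 (j + r) j (by omega)).symm

/-- points in the orbit of the constant sequence one -/
def zk (k : ℕ) : CS := fun j => decide (k < j)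

theorem zk_injective : Function.Injective zk := by
  intro a b hab
  by_contra hne
  rcases lt_or_gt_of_ne hne with h | h
  · have := congrFun hab b
    simp [zk, h] at this
  · have := congrFun hab a
    simp [zk, h] at this

theorem sF_zk (k : ℕ) : sF (zk k) = zk (k + 1) := by
  have : zk k 0 = false := by simp [zk]
  unfold sF
  rw [if_pos this]
  funext j
  cases j with
  | zero => simp [zk]
  | succ j => simp [zk]

theorem tF_oneS : tF oneS = zk 0 := by
  funext j
  cases j with
  | zero => simp [tF, zk, oneS]
  | succ j => simp [tF, zk, oneS]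

theorem rho_zk (k : ℕ) : rho (gs ^ k * gt) oneS = zk k := by
  induction k with
  | zero => rw [pow_zero, one_mul, rho_gt, tF_oneS]
  | succ k ih => rw [pow_succ', mul_assoc, rho_mul, ih, rho_gs, sF_zk]

theorem rho_eq_oneS_iff (k : ℕ) (x : CS) : rho (gs ^ k * gt)⁻¹ x = oneS ↔ x = zk k := by
  constructor
  · intro h
    rw [← rho_zk, ← h, ← rho_mul, mul_inv_cancel, map_one]
    rfl
  · rintro rfl
    rw [← rho_zk, ← rho_mul, inv_mul_cancel, map_one]
    rfl

/-! ### The product -/

/-- The base space. -/
abbrev YY := CS × CS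

variable {k : ℕ}

/-- first coordinate action -/
def rho1 : FreeGroup (Fin (k + 4)) →* (CS ≃ₜ CS) :=
  FreeGroup.lift (fun i => if i.val = 0 then sH else if i.val = 1 then tH else 1)
/-- second coordinate action -/
def rho2 : FreeGroup (Fin (k + 4)) →* (CS ≃ₜ CS) :=
  FreeGroup.lift (fun i => if i.val = 2 then sH else if i.val = 3 then tH else 1)
/-- first factor -/
def j1 : FreeGroup (Fin 2) →* FreeGroup (Fin (k + 4)) :=
  FreeGroup.lift ![FreeGroup.of ⟨0, by omega⟩, FreeGroup.of ⟨1, by omega⟩]
/-- second factor -/
def j2 : FreeGroup (Fin 2) →* FreeGroup (Fin (k + 4)) :=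
  FreeGroup.lift ![FreeGroup.of ⟨2, by omega⟩, FreeGroup.of ⟨3, by omega⟩]

theorem rho1_j1 (a : FreeGroup (Fin 2)) : rho1 (k := k) (j1 a) = rho a := by
  have : (rho1 (k := k)).comp j1 = rho := by
    ext1 i
    fin_cases i <;> simp [rho1, j1, rho]
  exact DFunLike.congr_fun this a

theorem rho2_j2 (a : FreeGroup (Fin 2)) : rho2 (k := k) (j2 a) = rho a := by
  have : (rho2 (k := k)).comp j2 = rho := by
    ext1 i
    fin_cases i <;> simp [rho2, j2, rho]
  exact DFunLike.congr_fun this a

theorem rho1_j2 (a : FreeGroup (Fin 2)) : rho1 (k := k) (j2 a) = 1 := by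
  have : (rho1 (k := k)).comp j2 = 1 := by
    ext1 i
    fin_cases i <;> simp [rho1, j2]
  exact DFunLike.congr_fun this a

theorem rho2_j1 (a : FreeGroup (Fin 2)) : rho2 (k := k) (j1 a) = 1 := by
  have : (rho2 (k := k)).comp j1 = 1 := by
    ext1 i
    fin_cases i <;> simp [rho2, j1]
  exact DFunLike.congr_fun this a

/-- the product action -/
def actY : FreeGroup (Fin (k + 4)) →* (YY ≃ₜ YY) where
  toFun a := (rho1 a).prodCongr (rho2 a)
  map_one' := by
    ext1 x
    rw [map_one, map_one]
    rfl
  map_mul' a b := by
    ext1 x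
    rw [map_mul, map_mul]
    rfl

theorem actY_apply (a : FreeGroup (Fin (k + 4))) (p : YY) :
    actY a p = (rho1 a p.1, rho2 a p.2) := rfl

variable (k) in
/-- The data. -/
def DD : Data (FreeGroup (Fin (k + 4))) YY where
  act := actY
  K := {p | p.1 0 = false} ∪ {p | p.2 0 = false}
  hK := ((isClopen_coord 0 false).preimage continuous_fst).union
    ((isClopen_coord 0 false).preimage continuous_snd)
  φ := fun p => (tl p.1, zeroS)
  hφ := (continuous_tl.comp continuous_fst).prodMk continuous_const
  hφK := fun _ => Or.inr rfl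

/-- the fat family -/
def FF : Fat (DD k) CS where
  H z := {p | p.1 0 = false ∧ p.2 = z}
  sub z := fun p hp => Or.inl hp.1
  ne z := ⟨(zeroS, z), rfl, rfl⟩
  next a := rho2 a zeroS
  step := by
    intro a z q hq
    refine ⟨(consB false (rho1 a⁻¹ q.1), z), ⟨rfl, rfl⟩, ?_⟩
    change (rho1 a (tl (consB false (rho1 a⁻¹ q.1))), rho2 a zeroS) = q
    rw [tl_consB, ← Homeomorph.mul_apply, ← map_mul, mul_inv_cancel, map_one]
    exact Prod.ext rfl hq.2.symm
  start := by
    intro a
    refine ⟨rho2 a oneS, fun q hq => ?_⟩
    rintro ⟨p, hp⟩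
    have h1 : (actY a⁻¹ q).2 = oneS := by
      rw [actY_apply]
      simp only
      rw [hq.2, ← Homeomorph.mul_apply, ← map_mul, inv_mul_cancel, map_one]
      rfl
    have h2 : (actY a⁻¹ q).2 = zeroS := by
      rw [show actY a⁻¹ q = (tl p.1, zeroS) from hp.symm]
    rw [h1] at h2
    have := congrFun h2 0
    simp [oneS, zeroS] at this

/-- base point -/
def pt : YY := (zeroS, zeroS)

theorem dense_orbit : Dense (range fun a : FreeGroup (Fin (k + 4)) => (DD k).act a pt) := by
  intro y
  have h1 := fun n => exists_approx zeroS n y.1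
  have h2 := fun n => exists_approx zeroS n y.2
  choose g1 hg1 using h1
  choose g2 hg2 using h2
  have ht : Tendsto (fun n => (DD k).act (j1 (g1 n) * j2 (g2 n)) pt) atTop (𝓝 y) := by
    have e : ∀ n, (DD k).act (j1 (g1 n) * j2 (g2 n)) pt = (rho (g1 n) zeroS, rho (g2 n) zeroS) := by
      intro n
      change actY (j1 (g1 n) * j2 (g2 n)) pt = _
      rw [actY_apply, map_mul, map_mul, rho1_j1, rho1_j2, rho2_j1, rho2_j2, mul_one, one_mul]
      rfl
    simp only [e]
    rw [show y = (y.1, y.2) from rfl]
    refine Tendsto.prodMk_nhds ?_ ?_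
    · rw [tendsto_pi_nhds]
      intro j
      refine tendsto_const_nhds.congr' ?_
      filter_upwards [eventually_gt_atTop j] with n hn
      exact (hg1 n j hn).symm
    · rw [tendsto_pi_nhds]
      intro j
      refine tendsto_const_nhds.congr' ?_
      filter_upwards [eventually_gt_atTop j] with n hn
      exact (hg2 n j hn).symm
  exact mem_closure_of_tendsto ht (Eventually.of_forall fun n => mem_range_self _)

/-- the character -/
def chi : FreeGroup (Fin (k + 4)) →* Multiplicative ℤ :=
  FreeGroup.lift (fun i => if i.val = 0 then Multiplicative.ofAdd 1 else 1)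

theorem chi_bound (i : Fin (k + 4)) : |ch chi (FreeGroup.of i)| ≤ 1 := by
  unfold ch chi
  rw [FreeGroup.lift_apply_of]
  split_ifs <;> simp

/-- the contracting sequence -/
def hseq (g : FreeGroup (Fin (k + 4))) (n : ℕ) : FreeGroup (Fin (k + 4)) :=
  j1 (gs ^ n) * j2 (gs ^ n) * g

theorem ch_hseq (g : FreeGroup (Fin (k + 4))) (n : ℕ) : ch chi (hseq g n) = n + ch chi g := by
  have h1 : ch (chi (k := k)) (j1 (gs ^ n)) = n := by
    simp [ch, chi, j1, gs]
  have h2 : ch (chi (k := k)) (j2 (gs ^ n)) = 0 := by
    simp [ch, chi, j2, gs]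
  rw [hseq, ch_mul, ch_mul, h1, h2, add_zero]

theorem tendsto_hseq (g : FreeGroup (Fin (k + 4))) (y : YY) (h1 : rho1 g y.1 ≠ oneS)
    (h2 : rho2 g y.2 ≠ oneS) : Tendsto (fun n => (DD k).act (hseq g n) y) atTop (𝓝 pt) := by
  have e : ∀ n, (DD k).act (hseq g n) y =
      (rho (gs ^ n) (rho1 g y.1), rho (gs ^ n) (rho2 g y.2)) := by
    intro n
    change actY (hseq g n) y = _
    rw [actY_apply, hseq, map_mul, map_mul, map_mul, map_mul, rho1_j1, rho1_j2, rho2_j1, rho2_j2,
      mul_one, one_mul]
    rfl
  simp only [e]
  exact Tendsto.prodMk_nhds (tendsto_pow_gs h1) (tendsto_pow_gs h2)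

end Pool.Agent.Lib.MP_0c6837_al
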