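import Pool.Agent.Lib.MP_0c6837_al.Space

/-!
# Faithfulness
-/

open Set Filter Topology
open scoped Classical

set_option autoImplicit false

namespace Pool.Agent.Lib.MP_0c6837_al

variable {m : ℕ}

/-- alternating words -/
def wd : List (ℤ × FreeGroup (Fin m)) → FreeGroup (Fin (m + 1))
  | [] => 1
  | p :: l => cgen ^ p.1 * inc p.2 * wd l

/-- good lists of syllables -/
def Good : List (ℤ × FreeGroup (Fin m)) → Prop
  | [] => True
  | p :: l => p.1 ≠ 0 ∧ (l ≠ [] → p.2 ≠ 1) ∧ Good l

/-- having a normal form -/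
def NF (g : FreeGroup (Fin (m + 1))) : Prop :=
  ∃ (a0 : FreeGroup (Fin m)) (l : List (ℤ × FreeGroup (Fin m))), Good l ∧ g = inc a0 * wd l

theorem NF_inc_mul (a : FreeGroup (Fin m)) {g : FreeGroup (Fin (m + 1))} (hg : NF g) :
    NF (inc a * g) := by
  obtain ⟨a0, l, hl, rfl⟩ := hg
  exact ⟨a * a0, l, hl, by rw [map_mul, mul_assoc]⟩

theorem NF_cgen_mul {n : ℤ} (hn : n ≠ 0) {g : FreeGroup (Fin (m + 1))} (hg : NF g) :
    NF (cgen ^ n * g) := by
  obtain ⟨a0, l, hl, rfl⟩ := hg
  by_cases ha : a0 = 1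
  · subst ha
    cases l with
    | nil => exact ⟨1, [(n, 1)], ⟨hn, by simp, trivial⟩, by simp [wd]⟩
    | cons p l =>
      by_cases h : n + p.1 = 0
      · refine ⟨p.2, l, hl.2.2, ?_⟩
        simp only [map_one, one_mul, wd, ← mul_assoc, ← zpow_add, h, zpow_zero]
      · refine ⟨1, (n + p.1, p.2) :: l, ⟨h, hl.2.1, hl.2.2⟩, ?_⟩
        simp only [map_one, one_mul, wd, ← mul_assoc, ← zpow_add]
  · exact ⟨1, (n, a0) :: l, ⟨hn, fun _ => ha, hl⟩, by simp [wd, mul_assoc]⟩

theorem NF_mul (g : FreeGroup (Fin (m + 1))) : ∀ h, NF h → NF (g * h) := by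
  induction g using FreeGroup.induction_on with
  | C1 => intro h hh; simpa using hh
  | of i =>
    intro h hh
    induction i using Fin.lastCases with
    | last => simpa [cgen] using NF_cgen_mul (n := 1) one_ne_zero hh
    | cast i => simpa [inc] using NF_inc_mul (FreeGroup.of i) hh
  | inv_of i _ =>
    intro h hh
    induction i using Fin.lastCases with
    | last => simpa [cgen] using NF_cgen_mul (n := -1) (by norm_num) hh
    | cast i => simpa [inc] using NF_inc_mul (FreeGroup.of i)⁻¹ hh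
  | mul g h hg hh =>
    intro k hk
    rw [mul_assoc]
    exact hg _ (hh _ hk)

theorem NF_all (g : FreeGroup (Fin (m + 1))) : NF g := by
  have := NF_mul g 1 ⟨1, [], trivial, by simp [wd]⟩
  simpa using this

variable {Y : Type} [TopologicalSpace Y] (D : Data (FreeGroup (Fin m)) Y)

/-- Fat families. -/
structure Fat (Z : Type) where
  /-- the fat sets -/
  H : Z → Set Y
  sub : ∀ z, H z ⊆ D.K
  ne : ∀ z, (H z).Nonempty
  /-- the next index -/
  next : FreeGroup (Fin m) → Z
  step : ∀ a z, ∀ q ∈ H (next a), ∃ p ∈ H z, D.act a (D.φ p) = q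
  start : ∀ a, ∃ z, ∀ q ∈ H z, D.act a⁻¹ q ∉ range D.φ

variable {D}

theorem traj {Z : Type} (F : Fat D Z) (b : FreeGroup (Fin m)) :
    ∀ l : List (ℤ × FreeGroup (Fin m)), l ≠ [] → Good l →
      ∃ z, ∀ q ∈ F.H z, ∃ y, y ∉ range D.φ ∧ ∃ (n : ℤ) (rest : List (FreeGroup (Fin m) × ℤ)) (base : Y),
        (gAct D (wd l * inc b) (clean D y)).1 = ((1, n) :: rest, base) ∧ NonEntry rest ∧
          val D rest base = q := by
  intro l
  induction l with
  | nil => intro h; exact absurd rfl h
  | cons p l ih =>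
    intro _ hgood
    obtain ⟨hn, ha, hl⟩ := hgood
    by_cases hl0 : l = []
    · subst hl0
      obtain ⟨z, hz⟩ := F.start (p.2 * b)
      refine ⟨z, fun q hq => ⟨D.act (p.2 * b)⁻¹ q, hz q hq, p.1, [], q, ?_, trivial, rfl⟩⟩
      have e1 : wd [p] * inc b = cgen ^ p.1 * inc (p.2 * b) := by
        simp [wd, mul_assoc]
      rw [e1, map_mul, gAct_cgen_zpow, gAct_inc]
      have e2 : (aPerm D (p.2 * b)) (clean D (D.act (p.2 * b)⁻¹ q)) = clean D q := by
        apply Subtype.ext
        change (([] : List (FreeGroup (Fin m) × ℤ)), D.act (p.2 * b) (D.act (p.2 * b)⁻¹ q)) = ([], q)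
        rw [← Homeomorph.mul_apply, ← map_mul, mul_inv_cancel, map_one]
        rfl
      change (cPerm D p.1 (aPerm D (p.2 * b) (clean D (D.act (p.2 * b)⁻¹ q)))).1 = _
      rw [e2]
      change cStep D p.1 ([], q) = _
      have hqK : val D ([] : List (FreeGroup (Fin m) × ℤ)) q ∈ D.K := F.sub z hq
      simp only [cStep, hqK, if_true, stackop, hn, if_false]
    · obtain ⟨z2, hz2⟩ := ih hl0 hl
      refine ⟨F.next p.2, fun q hq => ?_⟩
      obtain ⟨q2, hq2, hq2'⟩ := F.step p.2 z2 q hq
      obtain ⟨y, hy, n, rest, base, h1, h2, h3⟩ := hz2 q2 hq2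
      have hval : val D ((p.2, n) :: rest) base = q := by
        simp only [val]
        rw [h3, hq2']
      refine ⟨y, hy, p.1, (p.2, n) :: rest, base, ?_, ha hl0, hval⟩
      have e1 : wd (p :: l) * inc b = cgen ^ p.1 * (inc p.2 * (wd l * inc b)) := by
        simp [wd, mul_assoc]
      rw [e1, map_mul, map_mul, gAct_cgen_zpow, gAct_inc]
      change cStep D p.1 (aStep D p.2 (gAct D (wd l * inc b) (clean D y)).1) = _
      rw [h1]
      simp only [aStep, mul_one]
      have hK : val D ((p.2, n) :: rest) base ∈ D.K := by rw [hval]; exact F.sub _ hq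
      have hne : NonEntry ((p.2, n) :: rest) := ha hl0
      simp only [cStep, hK, if_true, stackop_nonentry hne, hn, if_false]

theorem acts_nontrivially {Z : Type} (F : Fat D Z) (b : FreeGroup (Fin m))
    {l : List (ℤ × FreeGroup (Fin m))} (hl : l ≠ []) (hg : Good l) :
    ∃ y, (gAct D (wd l * inc b) (clean D y)).v ≠ y := by
  obtain ⟨z, hz⟩ := traj F b l hl hg
  obtain ⟨q, hq⟩ := F.ne z
  obtain ⟨y, hy, n, rest, base, h1, -, h3⟩ := hz q hq
  refine ⟨y, fun h => hy ⟨q, ?_⟩⟩
  rw [← h]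
  change _ = val D (gAct D (wd l * inc b) (clean D y)).1.1 (gAct D (wd l * inc b) (clean D y)).1.2
  rw [h1]
  simp only
  rw [val_one_cons, h3]

variable [T2Space Y]

theorem clean_mem {y0 : Y} (hdense : Dense (range fun a : FreeGroup (Fin m) => D.act a y0)) (y : Y) :
    emb D (clean D y) ∈ Mset D y0 := by
  have hc : Continuous (fun y => emb D (clean D y)) := (continuous_emb D).comp (continuous_clean D)
  refine map_mem_closure (f := fun y => emb D (clean D y)) hc (hdense y) ?_
  rintro _ ⟨a, rfl⟩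
  refine ⟨inc a, ?_⟩
  simp only [gAct_inc]
  rfl

theorem faithful {Z : Type} (F : Fat D Z) {y0 : Y}
    (hdense : Dense (range fun a : FreeGroup (Fin m) => D.act a y0))
    {g : FreeGroup (Fin (m + 1))} (hg : g ≠ 1) : ∃ θ ∈ Mset D y0, shift g θ ≠ θ := by
  by_contra hcon
  push Not at hcon
  -- conjugates also act trivially
  have shift_mul : ∀ (s t : FreeGroup (Fin (m + 1))) (θ : FreeGroup (Fin (m + 1)) → Y),
      shift (s * t) θ = shift s (shift t θ) := by
    intro s t θ; funext k; simp [shift, mul_assoc]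
  have hconj : ∀ s : FreeGroup (Fin (m + 1)), ∀ θ ∈ Mset D y0, shift (s * g * s⁻¹) θ = θ := by
    intro s θ hθ
    rw [mul_assoc, shift_mul, shift_mul, hcon _ (shift_mem _ hθ), ← shift_mul, mul_inv_cancel]
    funext k; simp [shift]
  have main : ∀ (l : List (ℤ × FreeGroup (Fin m))) (b : FreeGroup (Fin m)) (s : FreeGroup (Fin (m + 1))),
      l ≠ [] → Good l → s * g * s⁻¹ = wd l * inc b → False := by
    intro l b s hl hgl hs
    obtain ⟨y, hy⟩ := acts_nontrivially F b hl hgl
    have h1 := hconj s _ (clean_mem hdense y)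
    rw [hs, shift_emb] at h1
    have h2 := congrFun h1 1
    rw [emb_one, emb_one] at h2
    exact hy h2
  obtain ⟨a0, l, hl, rfl⟩ := NF_all g
  by_cases hl0 : l = []
  · subst hl0
    have ha0 : a0 ≠ 1 := by
      rintro rfl
      exact hg (by simp [wd])
    refine main [(1, a0), (-1, 1)] 1 cgen (by simp) ⟨one_ne_zero, fun _ => ha0, by norm_num, by simp, trivial⟩ ?_
    simp [wd]
  · refine main l a0 (inc a0⁻¹) hl0 hl ?_
    simp

end Pool.Agent.Lib.MP_0c6837_al
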