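import Pool.Agent.Lib.MP_0c6837_al.Measure

/-!
# The final space
-/

open Set Filter Topology MeasureTheory
open scoped Classical ENNReal

set_option autoImplicit false

namespace Pool.Agent.Lib.MP_0c6837_al

variable {k : ℕ}

variable (k) in
/-- The compact space on which the free group of rank `k + 5` acts. -/
abbrev XX : Type := ↥(Mset (DD k) pt)

instance instSMulXX : SMul (FreeGroup (Fin (k + 4 + 1))) (XX k) where
  smul s ω := ⟨shift s ω.1, shift_mem s ω.2⟩

theorem smul_val (s : FreeGroup (Fin (k + 4 + 1))) (ω : XX k) : (s • ω).1 = shift s ω.1 := rfl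

instance instMulActionXX : MulAction (FreeGroup (Fin (k + 4 + 1))) (XX k) where
  one_smul ω := by
    apply Subtype.ext
    rw [smul_val]
    funext g; simp [shift]
  mul_smul s t ω := by
    apply Subtype.ext
    rw [smul_val, smul_val, smul_val]
    funext g; simp [shift, mul_assoc]

instance instContXX : ContinuousConstSMul (FreeGroup (Fin (k + 4 + 1))) (XX k) where
  continuous_const_smul s :=
    Continuous.subtype_mk ((continuous_shift s).comp continuous_subtype_val) _

instance instCompactXX : CompactSpace (XX k) :=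
  isCompact_iff_compactSpace.mp isClosed_closure.isCompact

/-- base point of the space -/
noncomputable def x0 : XX k := ⟨emb (DD k) (clean (DD k) pt), clean_mem dense_orbit pt⟩

/-- coordinates at the identity -/
theorem tendsto_x0 (g : FreeGroup (Fin (k + 4))) (θ : XX k) (h1 : rho1 g (θ.1 1).1 ≠ oneS)
    (h2 : rho2 g (θ.1 1).2 ≠ oneS) :
    Tendsto (fun n => inc (hseq g n) • θ) atTop (𝓝 x0) := by
  rw [tendsto_subtype_rng]
  exact tendsto_shift (χ := chi) chi_bound (ch_hseq g) θ.2 (tendsto_hseq g _ h1 h2)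

theorem exists_good (a b : CS) : ∃ g : FreeGroup (Fin (k + 4)), rho1 g a ≠ oneS ∧ rho2 g b ≠ oneS := by
  have h : ∀ c : CS, ∃ g, rho g c ≠ oneS := by
    intro c
    obtain ⟨g, hg⟩ := exists_prepend false c
    refine ⟨g, fun h => ?_⟩
    rw [h] at hg
    have := congrFun hg 0
    simp [oneS] at this
  obtain ⟨g1, h1⟩ := h a
  obtain ⟨g2, h2⟩ := h b
  refine ⟨j1 g1 * j2 g2, ?_, ?_⟩
  · rw [map_mul, rho1_j1, rho1_j2, mul_one]; exact h1
  · rw [map_mul, rho2_j1, rho2_j2, one_mul]; exact h2

theorem minimal : MulAction.IsMinimal (FreeGroup (Fin (k + 4 + 1))) (XX k) where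
  dense_orbit θ := by
    obtain ⟨g, h1, h2⟩ := exists_good (k := k) (θ.1 1).1 (θ.1 1).2
    have hx0 : x0 ∈ closure (MulAction.orbit (FreeGroup (Fin (k + 4 + 1))) θ) :=
      mem_closure_of_tendsto (tendsto_x0 g θ h1 h2) (Eventually.of_forall fun n => ⟨_, rfl⟩)
    have hinv : ∀ s : FreeGroup (Fin (k + 4 + 1)), s • (x0 : XX k) ∈
        closure (MulAction.orbit (FreeGroup (Fin (k + 4 + 1))) θ) := by
      intro s
      refine map_mem_closure (continuous_const_smul s) hx0 ?_
      rintro _ ⟨t, rfl⟩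
      exact ⟨s * t, by simp [mul_smul]⟩
    intro ω
    have h3 : ω ∈ closure (range fun s : FreeGroup (Fin (k + 4 + 1)) => s • (x0 : XX k)) := by
      rw [closure_subtype]
      have : ((↑) : XX k → (FreeGroup (Fin (k + 4 + 1)) → YY)) ''
          (range fun s : FreeGroup (Fin (k + 4 + 1)) => s • (x0 : XX k)) =
          range fun g : FreeGroup (Fin (k + 4 + 1)) => emb (DD k) (gAct (DD k) g (clean (DD k) pt)) := by
        rw [← range_comp]
        congr 1
        funext s
        change shift s (emb (DD k) (clean (DD k) pt)) = _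
        rw [shift_emb]
      rw [this]
      exact ω.2
    exact closure_minimal (by rintro _ ⟨s, rfl⟩; exact hinv s) isClosed_closure h3

theorem faithfulSMul : FaithfulSMul (FreeGroup (Fin (k + 4 + 1))) (XX k) where
  eq_of_smul_eq_smul {s t} h := by
    by_contra hne
    have hne' : t⁻¹ * s ≠ 1 := by
      intro h1
      apply hne
      have := congrArg (t * ·) h1
      simpa using this
    obtain ⟨θ, hθ, hne2⟩ := faithful (FF (k := k)) dense_orbit hne'
    apply hne2
    have h2 := h ⟨θ, hθ⟩
    have h3 : (t⁻¹ * s) • (⟨θ, hθ⟩ : XX k) = ⟨θ, hθ⟩ := by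
      rw [mul_smul, h2, inv_smul_smul]
    exact congrArg Subtype.val h3

theorem not_dense :
    ¬ Dense {x : XX k | MulAction.stabilizer (FreeGroup (Fin (k + 4 + 1))) x = ⊥} := by
  intro hd
  have hc1 : Continuous (fun x : XX k => x.1 1) :=
    (continuous_apply (1 : FreeGroup (Fin (k + 4 + 1)))).comp continuous_subtype_val
  have hopen : IsOpen {x : XX k | x.1 1 ∉ (DD k).K} :=
    (DD k).hK.compl.isOpen.preimage hc1
  have hne : {x : XX k | x.1 1 ∉ (DD k).K}.Nonempty := by
    refine ⟨⟨emb (DD k) (clean (DD k) (oneS, oneS)), clean_mem dense_orbit _⟩, ?_⟩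
    change emb (DD k) (clean (DD k) (oneS, oneS)) 1 ∉ (DD k).K
    rw [emb_one, v_clean]
    intro h
    rcases h with h | h <;> exact absurd h (by simp [oneS])
  obtain ⟨x, hx, hx'⟩ := hd.inter_open_nonempty _ hopen hne
  have hst : cgen ∈ MulAction.stabilizer (FreeGroup (Fin (k + 4 + 1))) x := by
    rw [MulAction.mem_stabilizer_iff]
    exact Subtype.ext (shift_cgen_eq x.2 hx)
  have hx'' : MulAction.stabilizer (FreeGroup (Fin (k + 4 + 1))) x = ⊥ := hx'
  rw [hx'', Subgroup.mem_bot] at hst
  exact FreeGroup.of_ne_one _ hst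

theorem proximal (mX : MeasurableSpace (XX k)) (bX : BorelSpace (XX k))
    (μ : ProbabilityMeasure (XX k)) :
    diracProba (x0 : XX k) ∈ closure (Set.range fun g : FreeGroup (Fin (k + 4 + 1)) =>
      μ.map (f := fun x => g • x) (continuous_const_smul g).measurable.aemeasurable) := by
  refine dirac_mem_closure μ x0 (fun O hO hx ε hε => ?_)
  have hε3 : 0 < ε / 3 := ENNReal.div_pos hε.ne' (by simp)
  have m1 : Continuous (fun θ : XX k => (θ.1 1).1) :=
    continuous_fst.comp ((continuous_apply 1).comp continuous_subtype_val)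
  have m2 : Continuous (fun θ : XX k => (θ.1 1).2) :=
    continuous_snd.comp ((continuous_apply 1).comp continuous_subtype_val)
  obtain ⟨n1, hn1⟩ := exists_small (μ : Measure (XX k)) (fun n => {θ : XX k | (θ.1 1).1 = zk n})
    (fun n => (isClosed_singleton.preimage m1).measurableSet)
    (by
      intro a b hab
      rw [Function.onFun, Set.disjoint_left]
      intro θ h1 h2
      exact hab (zk_injective ((show (θ.1 1).1 = zk a from h1).symm.trans h2))) hε3
  obtain ⟨n2, hn2⟩ := exists_small (μ : Measure (XX k)) (fun n => {θ : XX k | (θ.1 1).2 = zk n})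
    (fun n => (isClosed_singleton.preimage m2).measurableSet)
    (by
      intro a b hab
      rw [Function.onFun, Set.disjoint_left]
      intro θ h1 h2
      exact hab (zk_injective ((show (θ.1 1).2 = zk a from h1).symm.trans h2))) hε3
  set g : FreeGroup (Fin (k + 4)) := j1 (gs ^ n1 * gt)⁻¹ * j2 (gs ^ n2 * gt)⁻¹ with hg
  have r1 : ∀ c, rho1 g c = oneS ↔ c = zk n1 := by
    intro c
    rw [hg, map_mul, rho1_j1, rho1_j2, mul_one]
    exact rho_eq_oneS_iff n1 c
  have r2 : ∀ c, rho2 g c = oneS ↔ c = zk n2 := by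
    intro c
    rw [hg, map_mul, rho2_j1, rho2_j2, one_mul]
    exact rho_eq_oneS_iff n2 c
  set B : Set (XX k) := {θ | (θ.1 1).1 = zk n1} ∪ {θ | (θ.1 1).2 = zk n2} with hB
  have hBm : MeasurableSet B := ((isClosed_singleton.preimage m1).measurableSet).union
    ((isClosed_singleton.preimage m2).measurableSet)
  have hlim : ∀ θ : XX k, θ ∉ B → ∀ᶠ n in atTop, inc (hseq g n) • θ ∈ O := by
    intro θ hθ
    refine (tendsto_x0 g θ ?_ ?_).eventually (hO.mem_nhds hx)
    · intro h; exact hθ (Or.inl ((r1 _).mp h))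
    · intro h; exact hθ (Or.inr ((r2 _).mp h))
  set E : ℕ → Set (XX k) := fun N => (⋃ n ∈ {n | N ≤ n}, {θ | inc (hseq g n) • θ ∉ O}) \ B with hE
  have hEm : ∀ N, MeasurableSet (E N) := by
    intro N
    refine MeasurableSet.diff ?_ hBm
    refine MeasurableSet.biUnion (Set.to_countable _) (fun n _ => ?_)
    exact ((hO.preimage (continuous_const_smul (inc (hseq g n)))).measurableSet).compl
  have hanti : Antitone E := by
    intro a b hab
    refine sdiff_subset_sdiff_left ?_
    refine biUnion_subset_biUnion_left ?_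
    intro n hn
    exact le_trans hab hn
  have hinter : ⋂ N, E N = ∅ := by
    rw [eq_empty_iff_forall_notMem]
    intro θ hθ
    rw [mem_iInter] at hθ
    have hθB : θ ∉ B := (hθ 0).2
    obtain ⟨N, hN⟩ := eventually_atTop.mp (hlim θ hθB)
    have h1 := (hθ N).1
    simp only [mem_iUnion] at h1
    obtain ⟨n, hn, hn'⟩ := h1
    exact hn' (hN n hn)
  have hE0 : Tendsto (fun N => (μ : Measure (XX k)) (E N)) atTop (𝓝 0) := by
    have := tendsto_measure_iInter_atTop (μ := (μ : Measure (XX k)))
      (fun N => (hEm N).nullMeasurableSet) hanti ⟨0, measure_ne_top _ _⟩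
    rwa [hinter, measure_empty] at this
  obtain ⟨N, hN⟩ := (hE0.eventually (gt_mem_nhds hε3)).exists
  refine ⟨inc (hseq g N), ?_⟩
  have hsub : {θ : XX k | inc (hseq g N) • θ ∉ O} ⊆
      E N ∪ ({θ | (θ.1 1).1 = zk n1} ∪ {θ | (θ.1 1).2 = zk n2}) := by
    intro θ hθ
    by_cases hb : θ ∈ B
    · exact Or.inr hb
    · left
      refine ⟨?_, hb⟩
      simp only [mem_iUnion]
      exact ⟨N, le_refl N, hθ⟩
  calc (μ : Measure (XX k)) {θ | inc (hseq g N) • θ ∉ O}
      ≤ (μ : Measure (XX k)) (E N ∪ ({θ | (θ.1 1).1 = zk n1} ∪ {θ | (θ.1 1).2 = zk n2})) :=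
        measure_mono hsub
    _ ≤ (μ : Measure (XX k)) (E N) + ((μ : Measure (XX k)) {θ | (θ.1 1).1 = zk n1}
          + (μ : Measure (XX k)) {θ | (θ.1 1).2 = zk n2}) :=
        (measure_union_le _ _).trans (by gcongr; exact measure_union_le _ _)
    _ < ε / 3 + (ε / 3 + ε / 3) := by
        refine ENNReal.add_lt_add hN (ENNReal.add_lt_add hn1 hn2)
    _ = ε := by rw [← add_assoc]; exact ENNReal.add_thirds ε

end Pool.Agent.Lib.MP_0c6837_al
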