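import Pool.Agent.Lib.MP_0c6837_al.Stack

/-!
# The free group acting on states
-/

open Set Filter Topology
open scoped Classical

set_option autoImplicit false

namespace Pool.Agent.Lib.MP_0c6837_al

variable {m : ℕ} {Y : Type} [TopologicalSpace Y] (D : Data (FreeGroup (Fin m)) Y)

/-- The action of the free group of rank `m + 1` on states. -/
noncomputable def gAct : FreeGroup (Fin (m + 1)) →* Equiv.Perm (Om D) :=
  FreeGroup.lift (Fin.lastCases (cPerm D 1) (fun i => aPerm D (FreeGroup.of i)))

/-- The inclusion of the free group of rank `m`. -/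
def inc : FreeGroup (Fin m) →* FreeGroup (Fin (m + 1)) := FreeGroup.map Fin.castSucc

/-- The last generator. -/
def cgen : FreeGroup (Fin (m + 1)) := FreeGroup.of (Fin.last m)

theorem gAct_cgen : gAct D cgen = cPerm D 1 := by
  simp [gAct, cgen]

theorem gAct_inc (a : FreeGroup (Fin m)) : gAct D (inc a) = aPerm D a := by
  have : (gAct D).comp inc = aPerm D := by
    ext1 i
    simp [gAct, inc]
  exact DFunLike.congr_fun this a

theorem gAct_cgen_zpow (n : ℤ) : gAct D (cgen ^ n) = cPerm D n := by
  rw [map_zpow, gAct_cgen, cPerm_zpow]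

theorem continuous_gAct (g : FreeGroup (Fin (m + 1))) : Continuous (gAct D g) := by
  induction g using FreeGroup.induction_on with
  | C1 => simpa using continuous_id
  | of i =>
    induction i using Fin.lastCases with
    | last => 
      have := gAct_cgen D
      unfold cgen at this
      rw [this]; exact continuous_cPerm D 1
    | cast i =>
      have := gAct_inc D (FreeGroup.of i)
      simp only [inc, FreeGroup.map.of] at this
      rw [this]; exact continuous_aPerm D _
  | inv_of i _ =>
    induction i using Fin.lastCases with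
    | last => 
      have := gAct_cgen D
      unfold cgen at this
      rw [map_inv, this, ← cPerm_neg]; exact continuous_cPerm D (-1)
    | cast i =>
      have := gAct_inc D (FreeGroup.of i)
      simp only [inc, FreeGroup.map.of] at this
      rw [map_inv, this, ← map_inv]; exact continuous_aPerm D _
  | mul g h hg hh =>
    rw [map_mul]
    exact hg.comp hh

/-! ### Simulation -/

theorem val_append (p q : List (FreeGroup (Fin m) × ℤ)) (y : Y) :
    val D (p ++ q) y = val D p (val D q y) := by
  induction p with
  | nil => rfl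
  | cons h p ih => simp [val, ih]

variable (χ : FreeGroup (Fin m) →* Multiplicative ℤ)

/-- the integer value of `χ` -/
def ch (a : FreeGroup (Fin m)) : ℤ := Multiplicative.toAdd (χ a)

theorem ch_mul (a b : FreeGroup (Fin m)) : ch χ (a * b) = ch χ a + ch χ b := by
  simp [ch]

/-- The simulation relation. -/
def Sim (k : ℤ) (x x' : Om D) : Prop :=
  ∃ (p q : List (FreeGroup (Fin m) × ℤ)) (y y' : Y), x.1 = (p, y) ∧ x'.1 = (p ++ q, y') ∧
    val D q y' = y ∧ ∀ h ∈ q.head?, k < |ch χ h.1|

theorem Sim.v_eq {k : ℤ} {x x' : Om D} (h : Sim D χ k x x') : x.v = x'.v := by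
  obtain ⟨p, q, y, y', hx, hx', hy, -⟩ := h
  unfold Om.v
  rw [hx, hx']
  simp only
  rw [val_append, hy]

theorem Sim.aPerm {k : ℤ} {x x' : Om D} (a : FreeGroup (Fin m)) (ha : |ch χ a| ≤ 1)
    (h : Sim D χ (1 + k) x x') : Sim D χ k (aPerm D a x) (aPerm D a x') := by
  obtain ⟨p, q, y, y', hx, hx', hy, hq⟩ := h
  cases p with
  | nil =>
    cases q with
    | nil =>
      refine ⟨[], [], D.act a y, D.act a y', ?_, ?_, ?_, ?_⟩
      · change aStep D a x.1 = _
        rw [hx]; rfl
      · change aStep D a x'.1 = _
        rw [hx']; rfl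
      · simp only [val] at hy ⊢
        rw [hy]
      · simp
    | cons h q =>
      refine ⟨[], (a * h.1, h.2) :: q, D.act a y, y', ?_, ?_, ?_, ?_⟩
      · change aStep D a x.1 = _
        rw [hx]; rfl
      · change aStep D a x'.1 = _
        rw [hx']; rfl
      · rw [← hy]; simp [val]
      · intro h' hh'
        simp only [List.head?_cons, Option.mem_some_iff] at hh'
        subst hh'
        have := hq h (by simp)
        simp only [ch_mul]
        have h1 : |ch χ h.1| ≤ |ch χ a + ch χ h.1| + |ch χ a| := by
          have := abs_sub (ch χ a + ch χ h.1) (ch χ a)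
          simpa using this
        linarith
  | cons h p =>
    refine ⟨(a * h.1, h.2) :: p, q, y, y', ?_, ?_, hy, ?_⟩
    · change aStep D a x.1 = _
      rw [hx]; rfl
    · change aStep D a x'.1 = _
      rw [hx']; rfl
    · intro h' hh'
      have := hq h' hh'
      linarith

theorem Sim.cPerm {k : ℤ} (hk : 0 ≤ k) {x x' : Om D} (e : ℤ)
    (h : Sim D χ k x x') : Sim D χ k (cPerm D e x) (cPerm D e x') := by
  have hv := h.v_eq
  obtain ⟨p, q, y, y', hx, hx', hy, hq⟩ := h
  have hvx : x.v = val D p y := by unfold Om.v; rw [hx]
  have hvx' : x'.v = val D (p ++ q) y' := by unfold Om.v; rw [hx']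
  by_cases hK : x.v ∈ D.K
  · have hK' : x'.v ∈ D.K := hv ▸ hK
    rw [hvx] at hK
    rw [hvx'] at hK'
    cases p with
    | nil =>
      have hqn : NonEntry q := by
        cases q with
        | nil => trivial
        | cons h q =>
          have := hq h (by simp)
          intro h1
          rw [h1] at this
          simp [ch] at this
          omega
      refine ⟨if e = 0 then [] else [(1, e)], q, y, y', ?_, ?_, hy, hq⟩
      · change cStep D e x.1 = _
        rw [hx]
        simp only [cStep, hK, if_true, stackop]
      · change cStep D e x'.1 = _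
        rw [hx']
        simp only [cStep, hK', if_true]
        rw [List.nil_append, stackop_nonentry hqn]
        split_ifs <;> simp
    | cons h p =>
      rw [List.cons_append] at hK'
      by_cases h1 : h.1 = 1
      · refine ⟨if h.2 + e = 0 then p else (1, h.2 + e) :: p, q, y, y', ?_, ?_, hy, hq⟩
        · change cStep D e x.1 = _
          rw [hx]
          simp only [cStep, hK, if_true, stackop, h1]
        · change cStep D e x'.1 = _
          rw [hx']
          simp only [cStep, hK', if_true, List.cons_append, stackop, h1]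
          split_ifs <;> simp
      · refine ⟨if e = 0 then h :: p else (1, e) :: h :: p, q, y, y', ?_, ?_, hy, hq⟩
        · change cStep D e x.1 = _
          rw [hx]
          simp only [cStep, hK, if_true, stackop, h1, if_false]
        · change cStep D e x'.1 = _
          rw [hx']
          simp only [cStep, hK', if_true, List.cons_append, stackop, h1, if_false]
          split_ifs <;> simp
  · have hK' : x'.v ∉ D.K := hv ▸ hK
    rw [cPerm_of_notMem D e x hK, cPerm_of_notMem D e x' hK']
    exact ⟨p, q, y, y', hx, hx', hy, hq⟩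

/-- For each `g` there is a bound `L` so that `g` preserves simulation with loss `L`. -/
theorem sim_gAct (hχ : ∀ i, |ch χ (FreeGroup.of i)| ≤ 1) (g : FreeGroup (Fin (m + 1))) :
    ∃ L : ℤ, 0 ≤ L ∧ ∀ k : ℤ, 0 ≤ k → ∀ x x' : Om D, Sim D χ (L + k) x x' →
      Sim D χ k (gAct D g x) (gAct D g x') := by
  induction g using FreeGroup.induction_on with
  | C1 => exact ⟨0, le_rfl, fun k _ x x' h => by simpa using h⟩
  | of i =>
    induction i using Fin.lastCases with
    | last => 
      have := gAct_cgen D
      unfold cgen at this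
      rw [this]
      exact ⟨0, le_rfl, fun k hk x x' h => (by simpa using Sim.cPerm D χ (k := 0 + k) (by omega) 1 h)⟩
    | cast i =>
      have := gAct_inc D (FreeGroup.of i)
      simp only [inc, FreeGroup.map.of] at this
      rw [this]
      exact ⟨1, by norm_num, fun k hk x x' h => Sim.aPerm D χ _ (hχ i) h⟩
  | inv_of i _ =>
    induction i using Fin.lastCases with
    | last => 
      have := gAct_cgen D
      unfold cgen at this
      rw [map_inv, this, ← cPerm_neg]
      exact ⟨0, le_rfl, fun k hk x x' h => (by simpa using Sim.cPerm D χ (k := 0 + k) (by omega) (-1) h)⟩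
    | cast i =>
      have := gAct_inc D (FreeGroup.of i)
      simp only [inc, FreeGroup.map.of] at this
      rw [map_inv, this, ← map_inv]
      refine ⟨1, by norm_num, fun k hk x x' h => Sim.aPerm D χ _ ?_ h⟩
      have h1 := hχ i
      unfold ch at h1 ⊢
      rw [map_inv, toAdd_inv, abs_neg]
      exact h1
  | mul g h hg hh =>
    obtain ⟨L₁, h₁, H₁⟩ := hg
    obtain ⟨L₂, h₂, H₂⟩ := hh
    refine ⟨L₁ + L₂, by omega, fun k hk x x' hx => ?_⟩
    rw [map_mul]
    exact H₁ k hk _ _ (H₂ (L₁ + k) (by omega) x x' (by
      have : L₂ + (L₁ + k) = L₁ + L₂ + k := by ring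
      rw [this]; exact hx))

/-- Far away from the special point the structure looks clean. -/
theorem far_gAct (hχ : ∀ i, |ch χ (FreeGroup.of i)| ≤ 1) (g : FreeGroup (Fin (m + 1))) :
    ∃ L : ℤ, 0 ≤ L ∧ ∀ x : Om D, (∀ h ∈ x.1.1.head?, L < |ch χ h.1|) →
      (gAct D g x).v = (gAct D g (clean D x.v)).v := by
  obtain ⟨L, hL, H⟩ := sim_gAct D χ hχ g
  refine ⟨L, hL, fun x hx => ?_⟩
  have h := H 0 le_rfl (clean D x.v) x ⟨[], x.1.1, x.v, x.1.2, rfl, rfl, rfl, by simpa using hx⟩
  exact (h.v_eq).symm

end Pool.Agent.Lib.MP_0c6837_al
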