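import Pool.Agent.Lib.MP_0c6837_al.Cantor

/-!
# The action is strongly proximal
-/

open Set Filter Topology MeasureTheory
open scoped Classical ENNReal BoundedContinuousFunction

set_option autoImplicit false

namespace Pool.Agent.Lib.MP_0c6837_al

/-- Among countably many pairwise disjoint measurable sets one has small measure. -/
theorem exists_small {Ω : Type*} [MeasurableSpace Ω] (μ : Measure Ω) [IsProbabilityMeasure μ]
    (B : ℕ → Set Ω) (hB : ∀ n, MeasurableSet (B n)) (hd : Pairwise (Function.onFun Disjoint B))
    {ε : ℝ≥0∞} (hε : 0 < ε) : ∃ n, μ (B n) < ε := by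
  have h1 : ∑' n, μ (B n) = μ (⋃ n, B n) := (measure_iUnion hd hB).symm
  have h2 : ∑' n, μ (B n) ≠ ∞ := by rw [h1]; exact measure_ne_top _ _
  have h3 := ENNReal.tendsto_atTop_zero_of_tsum_ne_top h2
  exact (h3.eventually (gt_mem_nhds hε)).exists

/-- General criterion for the closure of the orbit of a measure to contain a Dirac measure. -/
theorem dirac_mem_closure {G X : Type} [Group G] [TopologicalSpace X] [FirstCountableTopology X]
    [MeasurableSpace X] [BorelSpace X] [MulAction G X] [ContinuousConstSMul G X]
    (μ : ProbabilityMeasure X) (x0 : X)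
    (h : ∀ O : Set X, IsOpen O → x0 ∈ O → ∀ ε : ℝ≥0∞, 0 < ε →
      ∃ g : G, (μ : Measure X) {x | g • x ∉ O} < ε) :
    diracProba x0 ∈ closure (Set.range fun g : G =>
      μ.map (f := fun x => g • x) (continuous_const_smul g).measurable.aemeasurable) := by
  obtain ⟨u, hu⟩ := (𝓝 x0).exists_antitone_basis
  have hV : ∀ n, ∃ V ⊆ u n, IsOpen V ∧ x0 ∈ V := fun n => mem_nhds_iff.mp (hu.mem n)
  choose V hVu hVo hVx using hV
  have hg : ∀ n : ℕ, ∃ g : G, (μ : Measure X) {x | g • x ∉ V n} < (1 / 2 : ℝ≥0∞) ^ n := by
    intro n
    exact h (V n) (hVo n) (hVx n) _ (ENNReal.pow_pos (by simp) n)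
  choose g hg using hg
  have hsum : ∑' n, (μ : Measure X) {x | g n • x ∉ V n} ≠ ∞ := by
    refine ne_top_of_le_ne_top ?_ (ENNReal.tsum_le_tsum fun n => (hg n).le)
    rw [ENNReal.tsum_geometric]
    simp
  have hae : ∀ᵐ x ∂(μ : Measure X), Tendsto (fun n => g n • x) atTop (𝓝 x0) := by
    filter_upwards [ae_eventually_notMem hsum] with x hx
    rw [hu.toHasBasis.tendsto_right_iff]
    intro i _
    filter_upwards [hx, eventually_ge_atTop i] with n hn hin
    simp only [not_not] at hn
    exact hu.antitone hin (hVu n hn)
  have ht : Tendsto (fun n => μ.map (f := fun x => g n • x)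
      (continuous_const_smul (g n)).measurable.aemeasurable) atTop (𝓝 (diracProba x0)) := by
    rw [ProbabilityMeasure.tendsto_iff_forall_integral_tendsto]
    intro f
    have e1 : ∀ n, ∫ ω, f ω ∂((μ.map (f := fun x => g n • x)
        (continuous_const_smul (g n)).measurable.aemeasurable : ProbabilityMeasure X) : Measure X)
        = ∫ x, f (g n • x) ∂(μ : Measure X) := by
      intro n
      rw [ProbabilityMeasure.toMeasure_map, integral_map
        (continuous_const_smul (g n)).measurable.aemeasurable
        f.continuous.measurable.aestronglyMeasurable]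
    have e2 : ∫ ω, f ω ∂((diracProba x0 : ProbabilityMeasure X) : Measure X)
        = ∫ _x, f x0 ∂(μ : Measure X) := by
      have : ((diracProba x0 : ProbabilityMeasure X) : Measure X) = Measure.dirac x0 := rfl
      rw [this, integral_dirac' _ _ f.continuous.measurable.stronglyMeasurable]
      simp
    simp only [e1, e2]
    refine tendsto_integral_of_dominated_convergence (fun _ => ‖f‖) ?_ ?_ ?_ ?_
    · intro n
      exact (f.continuous.comp (continuous_const_smul (g n))).measurable.aestronglyMeasurable
    · exact integrable_const _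
    · intro n
      exact Eventually.of_forall fun x => f.norm_coe_le_norm _
    · filter_upwards [hae] with x hx
      exact (f.continuous.tendsto x0).comp hx
  exact mem_closure_of_tendsto ht (Eventually.of_forall fun n => mem_range_self _)

end Pool.Agent.Lib.MP_0c6837_al
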