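import Pool.Agent.Lib.MP_0c6837_al.Group

/-!
# The compact space
-/

open Set Filter Topology
open scoped Classical

set_option autoImplicit false

namespace Pool.Agent.Lib.MP_0c6837_al

variable {m : ℕ} {Y : Type} [TopologicalSpace Y] (D : Data (FreeGroup (Fin m)) Y)

/-- The itinerary of a state. -/
noncomputable def emb (x : Om D) : FreeGroup (Fin (m + 1)) → Y := fun g => (gAct D g x).v

/-- The shift action on functions. -/
def shift (s : FreeGroup (Fin (m + 1))) (ω : FreeGroup (Fin (m + 1)) → Y) :
    FreeGroup (Fin (m + 1)) → Y := fun g => ω (g * s)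

theorem continuous_shift (s : FreeGroup (Fin (m + 1))) : Continuous (shift (Y := Y) s) :=
  continuous_pi fun g => continuous_apply (g * s)

theorem shift_emb (s : FreeGroup (Fin (m + 1))) (x : Om D) :
    shift s (emb D x) = emb D (gAct D s x) := by
  funext g
  simp [shift, emb]

theorem continuous_emb : Continuous (emb D) :=
  continuous_pi fun g => (continuous_v D).comp (continuous_gAct D g)

theorem emb_one (x : Om D) : emb D x 1 = x.v := by simp [emb]

/-- The compact space, as a subset of a product. -/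
def Mset (y0 : Y) : Set (FreeGroup (Fin (m + 1)) → Y) :=
  closure (range fun g : FreeGroup (Fin (m + 1)) => emb D (gAct D g (clean D y0)))

variable {D}

theorem Mset_subset {y0 : Y} {S : Set (FreeGroup (Fin (m + 1)) → Y)} (hS : IsClosed S)
    (h : ∀ x : Om D, emb D x ∈ S) : Mset D y0 ⊆ S :=
  closure_minimal (by rintro _ ⟨g, rfl⟩; exact h _) hS

theorem shift_mem {y0 : Y} (s : FreeGroup (Fin (m + 1))) {ω : FreeGroup (Fin (m + 1)) → Y}
    (hω : ω ∈ Mset D y0) : shift s ω ∈ Mset D y0 := by
  refine map_mem_closure (continuous_shift s) hω ?_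
  rintro _ ⟨g, rfl⟩
  refine ⟨s * g, ?_⟩
  simp only
  rw [shift_emb, map_mul]
  rfl

variable [T2Space Y]

theorem apply_inc_mul {y0 : Y} {θ : FreeGroup (Fin (m + 1)) → Y} (hθ : θ ∈ Mset D y0)
    (a : FreeGroup (Fin m)) (g : FreeGroup (Fin (m + 1))) :
    θ (inc a * g) = D.act a (θ g) := by
  have hcl : IsClosed {θ : FreeGroup (Fin (m + 1)) → Y | θ (inc a * g) = D.act a (θ g)} :=
    isClosed_eq (continuous_apply _) ((D.act a).continuous.comp (continuous_apply _))
  refine Mset_subset (D := D) hcl (fun x => ?_) hθ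
  simp [emb, gAct_inc, v_aPerm]

theorem apply_inc {y0 : Y} {θ : FreeGroup (Fin (m + 1)) → Y} (hθ : θ ∈ Mset D y0)
    (a : FreeGroup (Fin m)) : θ (inc a) = D.act a (θ 1) := by
  simpa using apply_inc_mul hθ a 1

theorem shift_cgen_eq {y0 : Y} {θ : FreeGroup (Fin (m + 1)) → Y} (hθ : θ ∈ Mset D y0)
    (h1 : θ 1 ∉ D.K) : shift cgen θ = θ := by
  have hcl : IsClosed {θ : FreeGroup (Fin (m + 1)) → Y | θ 1 ∈ D.K ∨ shift cgen θ = θ} :=
    (D.hK.isClosed.preimage (continuous_apply _)).union
      (isClosed_eq (continuous_shift _) continuous_id)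
  have := Mset_subset (D := D) hcl (fun x => ?_) hθ
  · rcases this with h | h
    · exact absurd h h1
    · exact h
  · by_cases hx : x.v ∈ D.K
    · left; rwa [emb_one]
    · right
      rw [shift_emb, gAct_cgen, cPerm_of_notMem D 1 x hx]

variable {χ : FreeGroup (Fin m) →* Multiplicative ℤ}

theorem eventually_eq (hχ : ∀ i, |ch χ (FreeGroup.of i)| ≤ 1) {h : ℕ → FreeGroup (Fin m)} {c0 : ℤ}
    (hh : ∀ n : ℕ, ch χ (h n) = n + c0) {y0 : Y} {θ : FreeGroup (Fin (m + 1)) → Y}
    (hθ : θ ∈ Mset D y0) (g : FreeGroup (Fin (m + 1))) :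
    ∀ᶠ n in atTop, θ (g * inc (h n)) = (gAct D g (clean D (θ (inc (h n))))).v := by
  obtain ⟨L, hL, H⟩ := far_gAct D χ hχ g
  set S : ℕ → Set (FreeGroup (Fin (m + 1)) → Y) :=
    fun n => {θ | θ (g * inc (h n)) = (gAct D g (clean D (θ (inc (h n))))).v} with hS
  have hScl : ∀ n, IsClosed (S n) := fun n =>
    isClosed_eq (continuous_apply _)
      ((continuous_v D).comp ((continuous_gAct D g).comp ((continuous_clean D).comp
        (continuous_apply _))))
  have key : ∀ n n' : ℕ, 2 * L < (n' : ℤ) - n → θ ∈ S n ∪ S n' := by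
    intro n n' hnn
    refine Mset_subset (D := D) ((hScl n).union (hScl n')) (fun x => ?_) hθ
    have claim : ∀ k : ℕ, (∀ p ∈ x.1.1.head?, L < |(k : ℤ) + c0 + ch χ p.1|) → emb D x ∈ S k := by
      intro k hk
      change emb D x (g * inc (h k)) = (gAct D g (clean D (emb D x (inc (h k))))).v
      have e1 : emb D x (g * inc (h k)) = (gAct D g (aPerm D (h k) x)).v := by
        simp [emb, gAct_inc]
      have e2 : emb D x (inc (h k)) = (aPerm D (h k) x).v := by
        simp [emb, gAct_inc]
      rw [e1, e2]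
      refine H _ ?_
      obtain ⟨⟨l, y⟩, hl⟩ := x
      intro p hp
      change p ∈ (aStep D (h k) (l, y)).1.head? at hp
      cases l with
      | nil => simp [aStep] at hp
      | cons q l =>
        simp only [aStep, List.head?_cons, Option.mem_some_iff] at hp
        subst hp
        simp only [ch_mul, hh]
        exact hk q (by simp)
    obtain ⟨⟨l, y⟩, hl⟩ := x
    cases l with
    | nil => left; exact claim n (by simp)
    | cons q l =>
      by_cases hq : L < |(n : ℤ) + c0 + ch χ q.1|
      · left; exact claim n (by simpa using hq)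
      · right
        refine claim n' (by
          simp only [List.head?_cons, Option.mem_some_iff, forall_eq']
          rw [not_lt, abs_le] at hq
          rw [lt_abs]
          left
          omega)
  by_cases hex : ∃ n, θ ∉ S n
  · obtain ⟨n, hn⟩ := hex
    filter_upwards [eventually_gt_atTop (n + (2 * L).toNat)] with n' hn'
    have := key n n' (by omega)
    rcases this with h1 | h1
    · exact absurd h1 hn
    · exact h1
  · push Not at hex
    exact Eventually.of_forall hex

/-- The key convergence statement. -/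
theorem tendsto_shift (hχ : ∀ i, |ch χ (FreeGroup.of i)| ≤ 1) {h : ℕ → FreeGroup (Fin m)} {c0 : ℤ}
    (hh : ∀ n : ℕ, ch χ (h n) = n + c0) {y0 : Y} {θ : FreeGroup (Fin (m + 1)) → Y}
    (hθ : θ ∈ Mset D y0) {y : Y} (hy : Tendsto (fun n => D.act (h n) (θ 1)) atTop (𝓝 y)) :
    Tendsto (fun n => shift (inc (h n)) θ) atTop (𝓝 (emb D (clean D y))) := by
  rw [tendsto_pi_nhds]
  intro g
  have h1 : Tendsto (fun n => (gAct D g (clean D (θ (inc (h n))))).v) atTop
      (𝓝 (emb D (clean D y) g)) := by
    have hc : Continuous (fun y => (gAct D g (clean D y)).v) :=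
      (continuous_v D).comp ((continuous_gAct D g).comp (continuous_clean D))
    have h2 : Tendsto (fun n => θ (inc (h n))) atTop (𝓝 y) := by
      refine hy.congr (fun n => ?_)
      rw [apply_inc hθ]
    exact (hc.tendsto y).comp h2
  refine h1.congr' ?_
  filter_upwards [eventually_eq hχ hh hθ g] with n hn
  exact hn.symm

end Pool.Agent.Lib.MP_0c6837_al
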