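import Mathlib

/-!
# Stack dynamics

An abstract construction: a group `A` acts on a space `Y` by homeomorphisms, `K` is a clopen subset of
`Y` and `φ : Y → Y` is a continuous map with values in `K`.  A state is a finite stack of pairs
`(h, n)` with `h : A`, `n : ℤ`, together with a base point `y : Y`.
-/

open Set Filter Topology
open scoped Classical

set_option autoImplicit false

namespace Pool.Agent.Lib.MP_0c6837_al

/-- Data for the stack construction. -/
structure Data (A Y : Type) [Group A] [TopologicalSpace Y] where
  /-- the action -/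
  act : A →* (Y ≃ₜ Y)
  /-- the clopen set -/
  K : Set Y
  hK : IsClopen K
  /-- the map giving the value at an entry -/
  φ : Y → Y
  hφ : Continuous φ
  hφK : ∀ y, φ y ∈ K

variable {A Y : Type} [Group A] [TopologicalSpace Y] (D : Data A Y)

/-- The value of a stack with a base point. -/
def val : List (A × ℤ) → Y → Y
  | [], y => y
  | p :: l, y => D.act p.1 (D.φ (val l y))

/-- A stack is an entry if its top group element is `1`. -/
def NonEntry : List (A × ℤ) → Prop
  | [] => True
  | p :: _ => p.1 ≠ 1

/-- Valid stacks. -/
def Valid : List (A × ℤ) → Y → Prop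
  | [], _ => True
  | p :: l, y => p.2 ≠ 0 ∧ Valid l y ∧ NonEntry l ∧ val D l y ∈ D.K

/-- The space of states. -/
def Om : Type := {p : List (A × ℤ) × Y // Valid D p.1 p.2}

variable {D}

/-- value of a state -/
def Om.v (x : Om D) : Y := val D x.1.1 x.1.2

variable (D)

/-- clean state -/
def clean (y : Y) : Om D := ⟨([], y), trivial⟩

@[simp] theorem v_clean (y : Y) : (clean D y).v = y := rfl

/-- action of `A` on stacks with a base point -/
def aStep (a : A) : List (A × ℤ) × Y → List (A × ℤ) × Y
  | ([], y) => ([], D.act a y)
  | (p :: l, y) => ((a * p.1, p.2) :: l, y)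

theorem aStep_valid (a : A) (x : List (A × ℤ) × Y) (hx : Valid D x.1 x.2) :
    Valid D (aStep D a x).1 (aStep D a x).2 := by
  obtain ⟨l, y⟩ := x
  cases l with
  | nil => trivial
  | cons p l => exact hx

theorem aStep_mul (a b : A) (x : List (A × ℤ) × Y) :
    aStep D (a * b) x = aStep D a (aStep D b x) := by
  obtain ⟨l, y⟩ := x
  cases l with
  | nil => simp [aStep]
  | cons p l => simp [aStep, mul_assoc]

theorem aStep_one (x : List (A × ℤ) × Y) :
    aStep D 1 x = x := by
  obtain ⟨l, y⟩ := x
  cases l with
  | nil => simp [aStep]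
  | cons p l => simp [aStep]

theorem val_aStep (a : A) (x : List (A × ℤ) × Y) :
    val D (aStep D a x).1 (aStep D a x).2 = D.act a (val D x.1 x.2) := by
  obtain ⟨l, y⟩ := x
  cases l with
  | nil => simp [aStep, val]
  | cons p l => simp [aStep, val]

/-- action of `A` by permutations -/
def aPerm : A →* Equiv.Perm (Om D) where
  toFun a :=
    { toFun := fun x => ⟨aStep D a x.1, aStep_valid D a x.1 x.2⟩
      invFun := fun x => ⟨aStep D a⁻¹ x.1, aStep_valid D a⁻¹ x.1 x.2⟩
      left_inv := fun x => Subtype.ext (by
        change aStep D a⁻¹ (aStep D a x.1) = x.1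
        rw [← aStep_mul, inv_mul_cancel, aStep_one])
      right_inv := fun x => Subtype.ext (by
        change aStep D a (aStep D a⁻¹ x.1) = x.1
        rw [← aStep_mul, mul_inv_cancel, aStep_one]) }
  map_one' := by
    ext1 x
    exact Subtype.ext (aStep_one D x.1)
  map_mul' a b := by
    ext1 x
    exact Subtype.ext (aStep_mul D a b x.1)

theorem v_aPerm (a : A) (x : Om D) : (aPerm D a x).v = D.act a x.v :=
  val_aStep D a x.1

/-- the operation on stacks -/
noncomputable def stackop (e : ℤ) : List (A × ℤ) → List (A × ℤ)
  | [] => if e = 0 then [] else [(1, e)]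
  | p :: l => if p.1 = 1 then (if p.2 + e = 0 then l else (1, p.2 + e) :: l)
      else (if e = 0 then p :: l else (1, e) :: p :: l)

/-- step of the cyclic group -/
noncomputable def cStep (e : ℤ) (x : List (A × ℤ) × Y) : List (A × ℤ) × Y :=
  (if val D x.1 x.2 ∈ D.K then stackop e x.1 else x.1, x.2)

theorem val_one_cons (n : ℤ) (l : List (A × ℤ)) (y : Y) :
    val D ((1, n) :: l) y = D.φ (val D l y) := by
  simp [val]

theorem stackop_nonentry {l : List (A × ℤ)} (hl : NonEntry l) (e : ℤ) :
    stackop e l = if e = 0 then l else (1, e) :: l := by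
  cases l with
  | nil => rfl
  | cons p l =>
    have : p.1 ≠ 1 := hl
    simp [stackop, this]

theorem stackop_entry (n : ℤ) (l : List (A × ℤ)) (e : ℤ) :
    stackop e (((1 : A), n) :: l) = if n + e = 0 then l else (1, n + e) :: l := by
  simp [stackop]

theorem entry_cases (l : List (A × ℤ)) : NonEntry l ∨ ∃ n l', l = ((1 : A), n) :: l' := by
  cases l with
  | nil => exact Or.inl trivial
  | cons p l =>
    by_cases h : p.1 = 1
    · right
      refine ⟨p.2, l, ?_⟩
      rw [← h]
    · left; exact h

theorem cStep_valid (e : ℤ) (x : List (A × ℤ) × Y) (hx : Valid D x.1 x.2) :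
    Valid D (cStep D e x).1 (cStep D e x).2 := by
  obtain ⟨l, y⟩ := x
  unfold cStep
  by_cases hv : val D l y ∈ D.K
  · simp only [hv, if_true]
    rcases entry_cases l with hl | ⟨n, l', rfl⟩
    · rw [stackop_nonentry hl]
      split_ifs with he
      · exact hx
      · exact ⟨he, hx, hl, hv⟩
    · rw [stackop_entry]
      split_ifs with he
      · exact hx.2.1
      · exact ⟨he, hx.2⟩
  · simp only [hv, if_false]
    exact hx

theorem cStep_add (e f : ℤ) (x : List (A × ℤ) × Y) (hx : Valid D x.1 x.2) :
    cStep D (e + f) x = cStep D e (cStep D f x) := by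
  obtain ⟨l, y⟩ := x
  by_cases hv : val D l y ∈ D.K
  · rcases entry_cases l with hl | ⟨n, l', rfl⟩
    · by_cases hf : f = 0
      · subst hf
        simp [cStep, hv, stackop_nonentry hl]
      · have h1 : val D (((1 : A), f) :: l) y ∈ D.K := by
          rw [val_one_cons]; exact D.hφK _
        simp only [cStep, hv, if_true, stackop_nonentry hl, hf, if_false, h1, stackop_entry]
        rw [add_comm]
    · have hl' : NonEntry l' := hx.2.2.1
      have hv' : val D l' y ∈ D.K := hx.2.2.2
      by_cases hf : n + f = 0
      · simp only [cStep, hv, if_true, stackop_entry, hf, hv', stackop_nonentry hl']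
        have : n + (e + f) = e := by omega
        rw [this]
      · have h1 : val D (((1 : A), n + f) :: l') y ∈ D.K := by
          rw [val_one_cons]; exact D.hφK _
        simp only [cStep, hv, if_true, stackop_entry, hf, if_false, h1]
        have : n + (e + f) = n + f + e := by omega
        rw [this]
  · simp [cStep, hv]

theorem cStep_zero (x : List (A × ℤ) × Y) (hx : Valid D x.1 x.2) :
    cStep D 0 x = x := by
  obtain ⟨l, y⟩ := x
  by_cases hv : val D l y ∈ D.K
  · rcases entry_cases l with hl | ⟨n, l', rfl⟩
    · simp [cStep, hv, stackop_nonentry hl]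
    · have : n ≠ 0 := hx.1
      simp [cStep, hv, stackop_entry, this]
  · simp [cStep, hv]

/-- action of the cyclic group by permutations -/
noncomputable def cPerm (e : ℤ) : Equiv.Perm (Om D) where
  toFun := fun x => ⟨cStep D e x.1, cStep_valid D e x.1 x.2⟩
  invFun := fun x => ⟨cStep D (-e) x.1, cStep_valid D (-e) x.1 x.2⟩
  left_inv := fun x => Subtype.ext (by
    change cStep D (-e) (cStep D e x.1) = x.1
    rw [← cStep_add D _ _ _ x.2, neg_add_cancel, cStep_zero D _ x.2])
  right_inv := fun x => Subtype.ext (by
    change cStep D e (cStep D (-e) x.1) = x.1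
    rw [← cStep_add D _ _ _ x.2, add_neg_cancel, cStep_zero D _ x.2])

theorem cPerm_add (e f : ℤ) : cPerm D (e + f) = cPerm D e * cPerm D f := by
  ext1 x
  exact Subtype.ext (cStep_add D e f x.1 x.2)

theorem cPerm_zero : cPerm D 0 = 1 := by
  ext1 x
  exact Subtype.ext (cStep_zero D x.1 x.2)

theorem cPerm_neg (e : ℤ) : cPerm D (-e) = (cPerm D e)⁻¹ := by
  rw [eq_inv_iff_mul_eq_one, ← cPerm_add, neg_add_cancel, cPerm_zero]

theorem cPerm_zpow (n : ℤ) : (cPerm D 1) ^ n = cPerm D n := by
  induction n using Int.induction_on with
  | zero => simp [cPerm_zero]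
  | succ n ih => rw [zpow_add_one, ih, ← cPerm_add]
  | pred n ih => rw [zpow_sub_one, ih, sub_eq_add_neg, cPerm_add, cPerm_neg D 1]

/-- If the value is outside `K`, the cyclic group acts trivially. -/
theorem cPerm_of_notMem (e : ℤ) (x : Om D) (hx : x.v ∉ D.K) : cPerm D e x = x := by
  apply Subtype.ext
  change cStep D e x.1 = x.1
  have : val D x.1.1 x.1.2 ∉ D.K := hx
  unfold cStep
  rw [if_neg this]

/-! ### Topology -/

instance : TopologicalSpace (List (A × ℤ)) := ⊥
instance : DiscreteTopology (List (A × ℤ)) := ⟨rfl⟩
instance : TopologicalSpace (Om D) := inferInstanceAs (TopologicalSpace {p : List (A × ℤ) × Y // Valid D p.1 p.2})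

theorem continuous_val (l : List (A × ℤ)) : Continuous (val D l) := by
  induction l with
  | nil => exact continuous_id
  | cons p l ih => exact (D.act p.1).continuous.comp (D.hφ.comp ih)

theorem continuous_v : Continuous (fun x : Om D => x.v) := by
  have h : Continuous (fun p : List (A × ℤ) × Y => val D p.1 p.2) :=
    continuous_prod_of_discrete_left.mpr (fun l => continuous_val D l)
  exact h.comp continuous_subtype_val

theorem continuous_clean : Continuous (clean D) :=
  Continuous.subtype_mk (by fun_prop) _

theorem continuous_aPerm (a : A) : Continuous (aPerm D a) := by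
  have h : Continuous (aStep D a) := by
    refine continuous_prod_of_discrete_left.mpr (fun l => ?_)
    cases l with
    | nil =>
      change Continuous (fun y => (([] : List (A × ℤ)), D.act a y))
      exact continuous_const.prodMk (D.act a).continuous
    | cons p l =>
      change Continuous (fun y => (((a * p.1, p.2) :: l : List (A × ℤ)), y))
      exact continuous_const.prodMk continuous_id
  exact Continuous.subtype_mk (h.comp continuous_subtype_val) _

theorem continuous_cPerm (e : ℤ) : Continuous (cPerm D e) := by
  have h : Continuous (cStep D e) := by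
    refine continuous_prod_of_discrete_left.mpr (fun l => ?_)
    change Continuous (fun y => ((if val D l y ∈ D.K then stackop e l else l : List (A × ℤ)), y))
    refine Continuous.prodMk ?_ continuous_id
    have hcl : IsClopen {y | val D l y ∈ D.K} := D.hK.preimage (continuous_val D l)
    exact (IsLocallyConstant.iff_continuous _).mp (by
      intro s
      have : ((fun y => if val D l y ∈ D.K then stackop e l else l) ⁻¹' s) =
        ({y | val D l y ∈ D.K} ∩ {y | stackop e l ∈ s}) ∪ ({y | val D l y ∈ D.K}ᶜ ∩ {y | l ∈ s}) := by
        ext y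
        by_cases hy : val D l y ∈ D.K <;> simp [hy]
      rw [this]
      refine ((hcl.isOpen.inter ?_).union (hcl.compl.isOpen.inter ?_))
      · by_cases hs : stackop e l ∈ s <;> simp [hs]
      · by_cases hs : l ∈ s <;> simp [hs])
  exact Continuous.subtype_mk (h.comp continuous_subtype_val) _

end Pool.Agent.Lib.MP_0c6837_al
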